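import Pool.Agent.Helper14_SN.Stmts

set_option autoImplicit false

/-! BIT, CNT: size of the integers and number of nodes. -/

namespace Pool.Agent.SN

open Net

theorem pow_le_of {a b : ℕ} (h : a ≤ b) : (2 : ℤ) ^ a ≤ 2 ^ b :=
  pow_le_pow_right₀ (by norm_num) h

theorem card_le_pow (K : ℕ) : (K : ℤ) ≤ 2 ^ K := by
  have := (Nat.lt_two_pow_self (n := K)).le
  exact_mod_cast this

theorem bit : BitStmt := by
  intro n k K W b g G hk hG t w N
  induction N with
  | @leaf i w B =>
    intro _ hB s c
    simp only [mulLeaf, val]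
    have hx : ∀ u, |∑ u', B c u' * G i u' u| ≤ 2 ^ (g + b + K) := by
      intro u
      have h1 : ∀ u' ∈ Finset.univ, |B c u' * G i u' u| ≤ 2 ^ (g + b) := by
        intro u' _
        rw [abs_mul, pow_add, mul_comm]
        exact mul_le_mul (hG i u' u) (hB c u') (abs_nonneg _) (by positivity)
      have h2 : |∑ u', B c u' * G i u' u| ≤ ∑ _u' : Fin (k i), (2 : ℤ) ^ (g + b) :=
        (Finset.abs_sum_le_sum_abs _ _).trans (Finset.sum_le_sum h1)
      rw [Finset.sum_const, Finset.card_univ, Fintype.card_fin, nsmul_eq_mul] at h2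
      refine h2.trans ?_
      have h3 : ((k i : ℕ) : ℤ) ≤ 2 ^ K :=
        (by exact_mod_cast hk i : ((k i : ℕ) : ℤ) ≤ (K : ℤ)).trans (card_le_pow K)
      calc ((k i : ℕ) : ℤ) * 2 ^ (g + b) ≤ 2 ^ K * 2 ^ (g + b) :=
            mul_le_mul_of_nonneg_right h3 (by positivity)
        _ = 2 ^ (g + b + K) := by rw [← pow_add]; congr 1; omega
    have hfin : (2 : ℤ) ^ (g + b + K) ≤ 2 ^ ((leaf (k := k) (i := i) B).count * (g + b + K + 2 * W)) := by
      apply pow_le_of
      simp only [count]
      omega
    cases h : s i with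
    | none => simp
    | some u => exact (hx u).trans hfin
  | @node l r a b' w M N N' ih ih' =>
    intro hw hB s c
    obtain ⟨hw1, hw2, hw3⟩ := hw
    obtain ⟨hM, hB1, hB2⟩ := hB
    have i1 := ih hw2 hB1 s
    have i2 := ih' hw3 hB2 s
    have ha : a ≤ W := by
      cases N with
      | leaf _ => exact hw2
      | node _ _ _ => exact hw2.1
    have hb' : b' ≤ W := by
      cases N' with
      | leaf _ => exact hw3
      | node _ _ _ => exact hw3.1
    simp only [mulLeaf, val]
    set E := g + b + K + 2 * W with hE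
    have h1 : ∀ x ∈ Finset.univ, |∑ y, M c x y * (N.mulLeaf G).val s x * (N'.mulLeaf G).val s y|
        ≤ 2 ^ W * (2 ^ b * 2 ^ (N.count * E) * 2 ^ (N'.count * E)) := by
      intro x _
      have h2 : ∀ y ∈ Finset.univ, |M c x y * (N.mulLeaf G).val s x * (N'.mulLeaf G).val s y|
          ≤ 2 ^ b * 2 ^ (N.count * E) * 2 ^ (N'.count * E) := by
        intro y _
        rw [abs_mul, abs_mul]
        apply mul_le_mul _ (i2 y) (abs_nonneg _) (by positivity)
        exact mul_le_mul (hM c x y) (i1 x) (abs_nonneg _) (by positivity)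
      refine ((Finset.abs_sum_le_sum_abs _ _).trans (Finset.sum_le_sum h2)).trans ?_
      rw [Finset.sum_const, Finset.card_univ, Fintype.card_fin, nsmul_eq_mul]
      apply mul_le_mul_of_nonneg_right _ (by positivity)
      exact (by exact_mod_cast hb' : ((b' : ℕ) : ℤ) ≤ (W : ℤ)).trans (card_le_pow W)
    refine ((Finset.abs_sum_le_sum_abs _ _).trans (Finset.sum_le_sum h1)).trans ?_
    rw [Finset.sum_const, Finset.card_univ, Fintype.card_fin, nsmul_eq_mul]
    have h3 : ((a : ℕ) : ℤ) ≤ 2 ^ W :=
      (by exact_mod_cast ha : ((a : ℕ) : ℤ) ≤ (W : ℤ)).trans (card_le_pow W)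
    calc ((a : ℕ) : ℤ) * (2 ^ W * (2 ^ b * 2 ^ (N.count * E) * 2 ^ (N'.count * E)))
        ≤ 2 ^ W * (2 ^ W * (2 ^ b * 2 ^ (N.count * E) * 2 ^ (N'.count * E))) :=
          mul_le_mul_of_nonneg_right h3 (by positivity)
      _ = 2 ^ (W + (W + (b + N.count * E + N'.count * E))) := by
          rw [pow_add, pow_add, pow_add, pow_add]
      _ ≤ 2 ^ ((node M N N').count * E) := by
          apply pow_le_of
          simp only [count]
          have : (N.count + N'.count + 1) * E = N.count * E + N'.count * E + E := by ring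
          rw [this]
          omega

theorem leaves_pos {n : ℕ} : ∀ t : Tree n, 0 < t.leaves.length
  | .leaf i => by simp [Tree.leaves]
  | .node l r => by
    have := leaves_pos l
    simp only [Tree.leaves, List.length_append]
    omega

theorem count_eq {F : Type} {n : ℕ} {k : Fin n → ℕ} : ∀ {t : Tree n} {w : ℕ} (N : Net F k t w),
    N.count + 1 = 2 * t.leaves.length
  | .leaf i, _, leaf B => by simp [count, Tree.leaves]
  | .node l r, _, node M N N' => by
    have h1 := count_eq N
    have h2 := count_eq N'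
    simp only [count, Tree.leaves, List.length_append]
    omega

theorem full_length {n : ℕ} {t : Tree n} (h : t.Full) : t.leaves.length = n := by
  classical
  have h1 : t.leaves.toFinset = Finset.univ := by
    ext i
    simp [h.2 i]
  have h2 := List.toFinset_card_of_nodup h.1
  rw [h1, Finset.card_univ, Fintype.card_fin] at h2
  exact h2.symm

theorem cnt : CntStmt := by
  intro n k t w N h
  have h1 := count_eq N
  rw [full_length h] at h1
  omega

end Pool.Agent.SN
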