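import Pool.Agent.Helper14_SN.Swp

set_option autoImplicit false

/-! COR: correctness of the algorithm. -/

namespace Pool.Agent.SN

theorem sum_list_map {ι α F : Type} [CommRing F] (S : Finset ι) (l : List α)
    (f : ι → α → F) : ∑ j ∈ S, (l.map (f j)).sum = (l.map fun p => ∑ j ∈ S, f j p).sum := by
  induction l with
  | nil => simp
  | cons p l ih =>
    simp only [List.map_cons, List.sum_cons]
    rw [Finset.sum_add_distrib, ih]

theorem holds_sum {F : Type} [CommRing F] {n : ℕ} {k : Fin n → ℕ} {c : ℕ} (φ : Fin c → PA k → F)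
    (ρ : Rel F k) (h : ∀ j, Holds (φ j) ρ) : Holds (fun s => ∑ j, φ j s) ρ := by
  intro s hs
  simp only
  rw [Finset.sum_congr rfl (fun j _ => h j s hs), sum_list_map]
  congr 1
  apply List.map_congr_left
  intro p _
  rw [Finset.mul_sum]

theorem cor (hsel : SelStmt) (hval : ValStmt) (hswp : SwpStmt) : CorStmt := by
  intro F _ _ n k c
  induction c with
  | zero =>
    intro N _
    simp [scalars]
  | succ c ih =>
    intro N hN
    obtain ⟨h1, h2, h3⟩ := hswp (N 0).2 (hN 0).1
    have hroot : ∀ s ∈ (N 0).2.sweep.1, s.Total := fun s hs i => (h1 s hs i).2 ((hN 0).2 i)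
    have hsl : ∀ ρ ∈ (N 0).2.sweep.2, ∀ s : PA k, s.Total → ∀ j : Fin c,
        ((N j.succ).2.slice ρ).val s 0 = (N j.succ).2.val (ρ.at_.merge s) 0 -
          (ρ.comb.map fun p => p.1 * (N j.succ).2.val (p.2.merge s) 0).sum :=
      fun ρ _ s hs j => hval _ ρ s hs
    have hkey : ∀ ρ ∈ (N 0).2.sweep.2,
        (∀ z ∈ scalars c (fun j => (⟨(N j.succ).1, (N j.succ).2.slice ρ⟩ : Term F k)), z = 0) ↔
          Holds (fun s => ∑ j : Fin c, (N j.succ).2.val s 0) ρ := by
      intro ρ hρ
      rw [← ih (fun j => (⟨(N j.succ).1, (N j.succ).2.slice ρ⟩ : Term F k))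
        (fun j => hN j.succ)]
      have e1 : ∀ s : PA k, s.Total → ∑ j : Fin c, ((N j.succ).2.slice ρ).val s 0
          = ∑ j : Fin c, (N j.succ).2.val (ρ.at_.merge s) 0 -
            (ρ.comb.map fun p => p.1 * ∑ j : Fin c, (N j.succ).2.val (p.2.merge s) 0).sum := by
        intro s hs
        rw [Finset.sum_congr rfl (fun j _ => hsl ρ hρ s hs j), Finset.sum_sub_distrib,
          sum_list_map]
        congr 2
        apply List.map_congr_left
        intro p _
        rw [Finset.mul_sum]
      constructor
      · intro h s hs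
        have := h s hs
        simp only at this
        rw [e1 s hs] at this
        exact sub_eq_zero.1 this
      · intro h s hs
        simp only
        rw [e1 s hs]
        exact sub_eq_zero.2 (h s hs)
    have hz : (∀ z ∈ scalars (c + 1) N, z = 0) ↔
        (∀ s ∈ (N 0).2.sweep.1, ∑ j, (N j).2.val s 0 = 0) ∧
        ∀ ρ ∈ (N 0).2.sweep.2, Holds (fun s => ∑ j : Fin c, (N j.succ).2.val s 0) ρ := by
      unfold scalars
      constructor
      · intro h
        refine ⟨fun s hs => h _ (List.mem_append_left _ (List.mem_map.2 ⟨s, hs, rfl⟩)), ?_⟩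
        intro ρ hρ
        rw [← hkey ρ hρ]
        intro z hz
        exact h z (List.mem_append_right _ (List.mem_flatMap.2 ⟨ρ, hρ, hz⟩))
      · rintro ⟨h4, h5⟩ z hz
        rcases List.mem_append.1 hz with h | h
        · obtain ⟨s, hs, rfl⟩ := List.mem_map.1 h
          exact h4 s hs
        · obtain ⟨ρ, hρ, h⟩ := List.mem_flatMap.1 h
          exact (hkey ρ hρ).2 (h5 ρ hρ) z h
    rw [hz]
    constructor
    · intro h
      refine ⟨fun s hs => h s (hroot s hs), fun ρ hρ s hs => ?_⟩
      have h4 : ∀ x : PA k, x.Total → ∑ j : Fin c, (N j.succ).2.val x 0 = -(N 0).2.val x 0 := by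
        intro x hx
        have := h x hx
        rw [Fin.sum_univ_succ] at this
        exact eq_neg_of_add_eq_zero_right this
      have h5 := h2 ρ hρ 0 s hs
      simp only at h5
      simp only
      rw [h4 _ (PA.merge_total hs), h5, ← neg_one_mul, ← List.sum_map_mul_left]
      congr 1
      apply List.map_congr_left
      intro p _
      rw [h4 _ (PA.merge_total hs)]
      ring
    · rintro ⟨h4, h5⟩ s hs
      apply h3 (fun s => ∑ j, (N j).2.val s 0) _ _ s hs
      · intro ρ hρ
        have h6 := h5 ρ hρ
        have h7 := h2 ρ hρ 0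
        intro x hx
        have h8 := h6 x hx
        have h9 := h7 x hx
        simp only at h8 h9
        simp only [Fin.sum_univ_succ]
        rw [h8, h9, ← List.sum_map_add]
        congr 1
        apply List.map_congr_left
        intro p _
        ring
      · intro s' hs' x _
        rw [PA.merge_of_total (hroot s' hs')]
        exact h4 s' hs'

end Pool.Agent.SN
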