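import Pool.Agent.Helper14_SN.Main
import Pool.Agent.Helper14_SN.Cor
import Pool.Agent.Helper14_SN.Bit
import Pool.Agent.Helper11_SN.Sel
import Pool.Agent.Helper17_SN.Tra
import Pool.Agent.Helper32_SN.Mod
import Pool.Agent.Helper32_SN.Prm
import Pool.Agent.Helper52_SN.Len
import Pool.Agent.Helper2_SN.Val

set_option autoImplicit false

namespace Pool.Agent.SN

theorem all : MainStmt :=
  main (cor H11.sel H2.val (swp H11.sel)) (H52.len H11.sel) H17.tra bit cnt H32.mod H32.prm

end Pool.Agent.SN
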