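import Pool.Agent.Helper12_RN.Size

set_option autoImplicit false

/-! Sums of read-once networks over different trees: definitions and the algorithm. -/

namespace Pool.Agent.SN

open Pool.Agent.Helper12_RN

/-- A binary tree whose leaves are labelled by blocks of variables. -/
inductive Tree (n : ℕ) : Type
  | leaf (i : Fin n) : Tree n
  | node (l r : Tree n) : Tree n

namespace Tree

variable {n : ℕ}

/-- The blocks at the leaves. -/
def leaves : Tree n → List (Fin n)
  | leaf i => [i]
  | node l r => l.leaves ++ r.leaves

/-- Every block occurs at exactly one leaf. -/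
def Full (t : Tree n) : Prop := t.leaves.Nodup ∧ ∀ i, i ∈ t.leaves

end Tree

/-- A network over a tree, with `w` outputs: a leaf labelled `i` outputs linear combinations of the
`k i` inputs of block `i`, an inner node combines the outputs of the two children bilinearly. -/
inductive Net (F : Type) {n : ℕ} (k : Fin n → ℕ) : Tree n → ℕ → Type
  | leaf {i : Fin n} {w : ℕ} (B : Fin w → Fin (k i) → F) : Net F k (.leaf i) w
  | node {l r : Tree n} {a b w : ℕ} (M : Fin w → Fin a → Fin b → F)
      (N : Net F k l a) (N' : Net F k r b) : Net F k (.node l r) w

/-- A partial assignment: for some of the blocks `i` one of the `k i` coordinates. -/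
abbrev PA {n : ℕ} (k : Fin n → ℕ) : Type := (i : Fin n) → Option (Fin (k i))

namespace PA

variable {n : ℕ} {k : Fin n → ℕ}

/-- The assignment of one coordinate to one block. -/
def single (i : Fin n) (u : Fin (k i)) : PA k := fun j => if h : j = i then some (h ▸ u) else none

/-- Union of two partial assignments. -/
def merge (s s' : PA k) : PA k := fun i => (s i).orElse fun _ => s' i

end PA

/-- A relation: the values at `at_` are the combination `∑ c • (values at s)` over the pairs `(c, s)`
of the list. -/
structure Rel (F : Type) {n : ℕ} (k : Fin n → ℕ) : Type where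
  /-- the dependent assignment -/
  at_ : PA k
  /-- coefficients and the independent assignments -/
  comb : List (F × PA k)

namespace Net

variable {F : Type} {n : ℕ} {k : Fin n → ℕ}

/-- The outputs at an assignment (which has to be defined for all blocks of the tree). -/
def val [Semiring F] : {t : Tree n} → {w : ℕ} → Net F k t w → PA k → Fin w → F
  | .leaf i, _, leaf B, s => fun c => match s i with
    | some u => B c u
    | none => 0
  | .node _ _, _, node M N N', s => fun c => ∑ a, ∑ b, M c a b * N.val s a * N'.val s b

/-- Fix the coordinates of the blocks at which `s` is defined. -/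
def fix (s : PA k) : {t : Tree n} → {w : ℕ} → Net F k t w → Net F k t w
  | .leaf i, _, leaf B => leaf fun c u => match s i with
    | some u' => B c u'
    | none => B c u
  | .node _ _, _, node M N N' => node M (N.fix s) (N'.fix s)

/-- The outputs of both networks. -/
def append [Zero F] : {t : Tree n} → {a b : ℕ} → Net F k t a → Net F k t b → Net F k t (a + b)
  | .leaf _, _, _, leaf B, leaf B' => leaf (Fin.append B B')
  | .node _ _, _, _, node M N N', node M' N1 N1' =>
    node (Fin.append
        (fun c => Fin.append (fun x => Fin.append (M c x) fun _ => 0) fun _ _ => 0)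
        (fun c => Fin.append (fun _ _ => 0) fun x => Fin.append (fun _ => 0) (M' c x)))
      (N.append N1) (N'.append N1')

/-- Combination of the outputs of a network. -/
def lin [Semiring F] {v : ℕ} : {t : Tree n} → {w : ℕ} → (Fin v → Fin w → F) → Net F k t w →
    Net F k t v
  | .leaf _, _, A, leaf B => leaf fun c u => ∑ d, A c d * B d u
  | .node _ _, _, A, node M N N' => node (fun c a b => ∑ d, A c d * M d a b) N N'

/-- `N + c N'` for two networks with one output. -/
def addSmul [Semiring F] {t : Tree n} (N : Net F k t 1) (c : F) (N' : Net F k t 1) : Net F k t 1 :=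
  lin (fun _ => ![1, c]) (append N N')

/-- The combination of slices given by a relation: it vanishes if the relation holds. -/
def slice [Ring F] {t : Tree n} (ρ : Rel F k) (N : Net F k t 1) : Net F k t 1 :=
  ρ.comb.foldl (fun N' p => N'.addSmul (-p.1) (N.fix p.2)) (N.fix ρ.at_)

/-- One elimination step. `Q` is an invertible matrix, `Q f(s_j)` is the `j`-th unit vector for the
assignments `s_0, s_1, ..., s_(r-1)` selected so far. If `y = Q f(s)` has a nonzero entry `y_c`,
`c ≥ r`, then `s` is selected and `Q` is multiplied by the elementary matrix that interchanges the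
rows `r` and `c` and eliminates; otherwise a relation is recorded. -/
def step [Field F] [DecidableEq F] {w : ℕ} (f : PA k → Fin w → F)
    (st : (Fin w → Fin w → F) × List (PA k) × List (Rel F k)) (s : PA k) :
    (Fin w → Fin w → F) × List (PA k) × List (Rel F k) :=
  let Q := st.1
  let y : Fin w → F := fun i => ∑ j, Q i j * f s j
  match (List.finRange w).find? (fun c => decide (st.2.1.length ≤ c.val) && decide (y c ≠ 0)) with
  | some c =>
    if h : st.2.1.length < w then
      let r : Fin w := ⟨st.2.1.length, h⟩
      let Q1 : Fin w → Fin w → F := fun i => if i = r then Q c else if i = c then Q r else Q i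
      let y1 : Fin w → F := fun i => if i = r then y c else if i = c then y r else y i
      let Q2 : Fin w → Fin w → F := fun i j =>
        if i = r then (y c)⁻¹ * Q1 r j else Q1 i j - y1 i * ((y c)⁻¹ * Q1 r j)
      (Q2, st.2.1 ++ [s], st.2.2)
    else st
  | none =>
    (Q, st.2.1, st.2.2 ++ [⟨s, ((List.finRange w).zip st.2.1).map fun p => (y p.1, p.2)⟩])

/-- Selection of a basis among the vectors `f s`, `s` in a list, with the relations of the others. -/
def select [Field F] [DecidableEq F] {w : ℕ} (f : PA k → Fin w → F) (c : List (PA k)) :
    List (PA k) × List (Rel F k) :=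
  (c.foldl (step f) (fun i j => if i = j then 1 else 0, [], [])).2

/-- From the leaves to the root: at every node a list of at most `w` assignments that determines all
outputs, chosen among the pairs of assignments of the two children, and all the relations found. -/
def sweep [Field F] [DecidableEq F] : {t : Tree n} → {w : ℕ} → Net F k t w →
    List (PA k) × List (Rel F k)
  | .leaf i, _, leaf B =>
    select (leaf (k := k) (i := i) B).val ((List.finRange (k i)).map (PA.single i))
  | .node _ _, _, node M N N' =>
    let p := N.sweep
    let q := N'.sweep
    let u := select (node M N N').val (p.1.flatMap fun s => q.1.map fun s' => s.merge s')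
    (u.1, p.2 ++ q.2 ++ u.2)

/-- All numbers of outputs in the network are at most `w0`. -/
def Width (w0 : ℕ) : {t : Tree n} → {w : ℕ} → Net F k t w → Prop
  | .leaf _, w, leaf _ => w ≤ w0
  | .node _ _, w, node _ N N' => w ≤ w0 ∧ N.Width w0 ∧ N'.Width w0

/-- Apply a function to all coefficients. -/
def map {F' : Type} (φ : F → F') : {t : Tree n} → {w : ℕ} → Net F k t w → Net F' k t w
  | .leaf _, _, leaf B => leaf fun c u => φ (B c u)
  | .node _ _, _, node M N N' => node (fun c a b => φ (M c a b)) (N.map φ) (N'.map φ)

/-- Multiply the matrices at the leaves by the matrices `G i`. -/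
def mulLeaf [Semiring F] (G : (i : Fin n) → Fin (k i) → Fin (k i) → F) :
    {t : Tree n} → {w : ℕ} → Net F k t w → Net F k t w
  | .leaf i, _, leaf B => leaf fun c u => ∑ u', B c u' * G i u' u
  | .node _ _, _, node M N N' => node M (N.mulLeaf G) (N'.mulLeaf G)

end Net

/-- A network with one output together with its tree. -/
abbrev Term (F : Type) {n : ℕ} (k : Fin n → ℕ) : Type := Σ t : Tree n, Net F k t 1

/-- The scalars computed by the algorithm for the sum of `c` networks: the values of the sum at the
assignments selected at the root of the first network, and recursively the scalars for the sums of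
the slices of the other `c - 1` networks, for all relations found in the first network. -/
def scalars {F : Type} [Field F] [DecidableEq F] {n : ℕ} {k : Fin n → ℕ} :
    (c : ℕ) → (Fin c → Term F k) → List F
  | 0, _ => []
  | c + 1, N =>
    ((N 0).2.sweep.1.map fun s => ∑ j, (N j).2.val s 0) ++
      (N 0).2.sweep.2.flatMap fun ρ => scalars c fun j => ⟨(N j.succ).1, (N j.succ).2.slice ρ⟩

/-- All widths of networks occurring in the recursion are at most `W`. -/
def WidthAll {F : Type} [Field F] [DecidableEq F] {n : ℕ} {k : Fin n → ℕ} (W : ℕ) :
    (c : ℕ) → (Fin c → Term F k) → Prop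
  | 0, _ => True
  | c + 1, N => (∀ j, (N j).2.Width W) ∧
      ∀ ρ ∈ (N 0).2.sweep.2, WidthAll W c fun j => ⟨(N j.succ).1, (N j.succ).2.slice ρ⟩

/-! ### Polynomials -/

section Poly

variable {σ : Type} {n : ℕ} (L : Fin n → Layer σ ℤ)

/-- The polynomials computed by a network whose inputs at block `i` are the terms of the layer
`L i`. -/
noncomputable def poly : {t : Tree n} → {w : ℕ} → Net ℤ (fun i => (L i).K) t w → Fin w →
    MvPolynomial σ ℤ
  | .leaf i, _, .leaf B => fun c => ∑ u, MvPolynomial.C (B c u) * (L i).g u
  | .node _ _, _, .node M N N' => fun c => ∑ a, ∑ b, MvPolynomial.C (M c a b) * poly N a * poly N' b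

/-- The network of residues modulo `p`, with the Gram matrices of the layers multiplied into the
matrices at the leaves. -/
noncomputable def residue (p : ℕ) (N : Term ℤ (fun i => (L i).K)) :
    Term (ZMod p) (fun i => (L i).K) :=
  ⟨N.1, (N.2.mulLeaf fun i => (L i).gram).map (Int.castRingHom (ZMod p))⟩

end Poly

namespace Net

variable {n : ℕ} {k : Fin n → ℕ}

/-- Number of nodes and leaves. -/
def count {F : Type} : {t : Tree n} → {w : ℕ} → Net F k t w → ℕ
  | .leaf _, _, leaf _ => 1
  | .node _ _, _, node _ N N' => N.count + N'.count + 1

/-- All coefficients are at most `2 ^ b` in absolute value. -/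
def Bits (b : ℕ) : {t : Tree n} → {w : ℕ} → Net ℤ k t w → Prop
  | .leaf _, _, leaf B => ∀ c u, |B c u| ≤ 2 ^ b
  | .node _ _, _, node M N N' => (∀ c x y, |M c x y| ≤ 2 ^ b) ∧ N.Bits b ∧ N'.Bits b

end Net

end Pool.Agent.SN
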