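import Pool.Agent.Helper14_SN.All

set_option autoImplicit false

/-!
# `MP_b2b50d_lc`: white-box identity test for sums of read-once networks over different trees

The variables are divided into `n` blocks. Block `i` has a layer `L i`: a family of polynomials
`g_u = cof_u * ∏ j, base_j ^ e_uj` with exponents in binary. A network is a binary tree with the
blocks at its leaves whose leaves output integer combinations of the polynomials `g_u` of their
block and whose inner nodes combine the outputs of the two children bilinearly. The theorem tests
whether the sum of `c` such networks, over `c` arbitrary different trees, is the zero polynomial: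
iff all the elements of an explicit list of scalars, computed from the residues modulo `p` of the
networks, vanish for all primes `p` up to a polynomial bound. For fixed `c` the number of scalars
and the widths of all networks in the recursion are polynomially bounded.
-/

namespace Pool.Agent.Results.MP_b2b50d_lc.SumsOfNetworks

open Pool.Agent.Helper12_RN (Layer R)
open Pool.Agent.SN

/-- White-box identity test for sums of read-once networks over different trees whose leaves are
sums of products of powers with binary exponents. -/
theorem result {σ : Type} {n c : ℕ} (L : Fin n → Layer σ ℤ) (hL : ∀ i, (L i).Valid)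
    (hd : ∀ i j, i ≠ j → Disjoint (L i).vars (L j).vars)
    (N : Fin c → Term ℤ (fun i => (L i).K)) (hN : ∀ j, (N j).1.Full) (k m d b W : ℕ)
    (hS : ∀ i, (L i).Small k m d b) (hW : ∀ j, (N j).2.Width W ∧ (N j).2.Bits b) :
    (∑ j, poly L (N j).2 0 = 0 ↔ ∀ p : ℕ, [Fact p.Prime] → p ≤ primeBound n c k m d b W →
      ∀ z ∈ scalars c (fun j => residue L p (N j)), z = 0) ∧
    (∀ p : ℕ, [Fact p.Prime] →
      (scalars c (fun j => residue L p (N j))).length ≤
        (2 * n * (k + 1)) ^ c * (W + 1) ^ (2 ^ (c + 1) - 2) ∧
      WidthAll ((W + 1) ^ 2 ^ c) c (fun j => residue L p (N j))) ∧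
    ∀ i, ∀ u, ∑ j, (L i).red u j ≤ R k m d ∧
      ∀ u' C r r', C ≤ (L i).B → r ≤ (L i).red u → r' ≤ (L i).red u' →
        |(L i).gramB u u' C r r'| ≤ 2 ^ (2 * b * (1 + R k m d)) :=
  all L hL hd N hN k m d b W hS hW

end Pool.Agent.Results.MP_b2b50d_lc.SumsOfNetworks
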