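import Pool.Agent.Helper14_SN.Stmts

set_option autoImplicit false

/-! MAIN: assembly. -/

namespace Pool.Agent.SN

open Pool.Agent.Helper12_RN (Layer)
open Net

theorem width_map {F F' : Type} (φ : F → F') {n : ℕ} {k : Fin n → ℕ} (W : ℕ) :
    ∀ {t : Tree n} {w : ℕ} (N : Net F k t w), (N.map φ).Width W ↔ N.Width W
  | .leaf _, _, leaf _ => Iff.rfl
  | .node _ _, _, node M N N' => by
    simp only [Net.map, Width]
    rw [width_map φ W N, width_map φ W N']

theorem width_mulLeaf {F : Type} [Semiring F] {n : ℕ} {k : Fin n → ℕ}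
    (G : (i : Fin n) → Fin (k i) → Fin (k i) → F) (W : ℕ) :
    ∀ {t : Tree n} {w : ℕ} (N : Net F k t w), (N.mulLeaf G).Width W ↔ N.Width W
  | .leaf _, _, leaf _ => Iff.rfl
  | .node _ _, _, node M N N' => by
    simp only [Net.mulLeaf, Width]
    rw [width_mulLeaf G W N, width_mulLeaf G W N']

theorem two_pow_nat (c : ℕ) : (c : ℤ) ≤ 2 ^ c := by
  have := (Nat.lt_two_pow_self (n := c)).le
  exact_mod_cast this

theorem main (hcor : CorStmt) (hlen : LenStmt) (htra : TraStmt) (hbit : BitStmt) (hcnt : CntStmt)
    (hmod : ModStmt) (hprm : PrmStmt) : MainStmt := by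
  intro σ n c L hL hd N hN k m d b W hS hW
  refine ⟨?_, ?_, ?_⟩
  · rw [htra L hL hd N hN]
    have h1 : ∀ (p : ℕ) [Fact p.Prime], (∀ z ∈ scalars c (fun j => residue L p (N j)), z = 0) ↔
        ∀ s : PA (fun i => (L i).K), s.Total →
          (p : ℤ) ∣ ∑ j, ((N j).2.mulLeaf fun i => (L i).gram).val s 0 := by
      intro p _
      rw [← hcor c (fun j => residue L p (N j)) hN]
      have h2 : ∀ s : PA (fun i => (L i).K), ∑ j, (residue L p (N j)).2.val s 0
          = ((∑ j, ((N j).2.mulLeaf fun i => (L i).gram).val s 0 : ℤ) : ZMod p) := by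
        intro s
        rw [Int.cast_sum]
        apply Finset.sum_congr rfl
        intro j _
        exact hmod p _ s 0
      constructor
      · intro h s hs
        have := h s hs
        rw [h2, ZMod.intCast_zmod_eq_zero_iff_dvd] at this
        exact this
      · intro h s hs
        rw [h2, ZMod.intCast_zmod_eq_zero_iff_dvd]
        exact h s hs
    constructor
    · intro h p _ _
      rw [h1 p]
      intro s hs
      rw [h s hs]
      exact dvd_zero _
    · intro h s hs
      set g := 2 * b * (1 + Helper12_RN.R k m d) with hg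
      set B := c + 2 * n * (g + b + k + 2 * W) with hB
      apply hprm B
      · have h3 : ∀ j ∈ Finset.univ, |((N j).2.mulLeaf fun i => (L i).gram).val s 0|
            ≤ 2 ^ (2 * n * (g + b + k + 2 * W)) := by
          intro j _
          refine (hbit k W b g (fun i => (L i).gram) (fun i => (hS i).1) (fun i u u' => ?_)
            (N j).2 (hW j).1 (hW j).2 s 0).trans ?_
          · exact Layer.gram_le (L i) (hL i) (hS i) u u'
          · apply pow_le_pow_right₀ (by norm_num)
            exact Nat.mul_le_mul_right _ (hcnt (N j).2 (hN j)).le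
        refine ((Finset.abs_sum_le_sum_abs _ _).trans (Finset.sum_le_sum h3)).trans ?_
        rw [Finset.sum_const, Finset.card_univ, Fintype.card_fin, nsmul_eq_mul, hB, pow_add]
        exact mul_le_mul_of_nonneg_right (two_pow_nat c) (by positivity)
      · intro p hp hpB
        haveI : Fact p.Prime := ⟨hp⟩
        exact (h1 p).1 (h p hpB) s hs
  · intro p _
    refine hlen k W (fun i => (hS i).1) c (fun j => residue L p (N j)) (fun j => hN j) ?_
    intro j
    change ((((N j).2.mulLeaf fun i => (L i).gram).map (Int.castRingHom (ZMod p)))).Width W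
    rw [width_map, width_mulLeaf]
    exact (hW j).1
  · intro i u
    exact ⟨(L i).sum_red_le (hL i) (hS i) u, fun u' C r r' hC hr hr' =>
      (L i).gramB_le (hL i) (hS i) u u' C hC r r' hr hr'⟩

end Pool.Agent.SN
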