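import Pool.Agent.Helper14_SN.Defs

set_option autoImplicit false

/-! Statements of the modules. -/

namespace Pool.Agent.SN

open Pool.Agent.Helper12_RN

/-- `s` is defined for all blocks. -/
def PA.Total {n : ℕ} {k : Fin n → ℕ} (s : PA k) : Prop := ∀ i, (s i).isSome

/-- A function of total assignments satisfies a relation. -/
def Holds {F : Type} [Semiring F] {n : ℕ} {k : Fin n → ℕ} (φ : PA k → F) (ρ : Rel F k) : Prop :=
  ∀ s : PA k, s.Total →
    φ (ρ.at_.merge s) = (ρ.comb.map fun p => p.1 * φ (p.2.merge s)).sum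

/-- SEL: the selection. -/
def SelStmt : Prop :=
  ∀ {F : Type} [Field F] [DecidableEq F] {n : ℕ} {k : Fin n → ℕ} {w : ℕ} (f : PA k → Fin w → F)
    (c : List (PA k)),
    (Net.select f c).1.length ≤ w ∧
    (Net.select f c).1.length + (Net.select f c).2.length = c.length ∧
    (∀ s ∈ (Net.select f c).1, s ∈ c) ∧
    (∀ s ∈ c, s ∈ (Net.select f c).1 ∨ ∃ ρ ∈ (Net.select f c).2, ρ.at_ = s) ∧
    ∀ ρ ∈ (Net.select f c).2, ρ.at_ ∈ c ∧ ρ.comb.length ≤ w ∧
      (∀ p ∈ ρ.comb, p.2 ∈ (Net.select f c).1) ∧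
      ∀ i, f ρ.at_ i = (ρ.comb.map fun p => p.1 * f p.2 i).sum

/-- VAL: values of the constructed networks. -/
def ValStmt : Prop :=
  ∀ {F : Type} [CommRing F] {n : ℕ} {k : Fin n → ℕ} {t : Tree n} (N : Net F k t 1) (ρ : Rel F k)
    (s : PA k), s.Total →
    (N.slice ρ).val s 0 = N.val (ρ.at_.merge s) 0 -
      (ρ.comb.map fun p => p.1 * N.val (p.2.merge s) 0).sum

/-- WID: widths of slices. -/
def WidStmt : Prop :=
  ∀ {F : Type} [Ring F] {n : ℕ} {k : Fin n → ℕ} {t : Tree n} (N : Net F k t 1) (ρ : Rel F k) (W : ℕ),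
    N.Width W → ρ.comb.length ≤ W → (N.slice ρ).Width (W * (W + 1))

/-- SWP: the relations found in a network hold for all its outputs, involve only its blocks, and
the selected assignments together with the relations determine every function. -/
def SwpStmt : Prop :=
  ∀ {F : Type} [Field F] [DecidableEq F] {n : ℕ} {k : Fin n → ℕ} {t : Tree n} {w : ℕ}
    (N : Net F k t w), t.leaves.Nodup →
    (∀ s ∈ N.sweep.1, ∀ i, (s i).isSome ↔ i ∈ t.leaves) ∧
    (∀ ρ ∈ N.sweep.2, ∀ c, Holds (fun s => N.val s c) ρ) ∧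
    ∀ φ : PA k → F, (∀ ρ ∈ N.sweep.2, Holds φ ρ) →
      (∀ s ∈ N.sweep.1, ∀ s' : PA k, s'.Total → φ (s.merge s') = 0) →
      ∀ s : PA k, s.Total → φ s = 0

/-- SWL: the numbers of selected assignments and relations. -/
def SwlStmt : Prop :=
  ∀ {F : Type} [Field F] [DecidableEq F] {n : ℕ} {k : Fin n → ℕ} {t : Tree n} {w : ℕ}
    (N : Net F k t w) (K W : ℕ), (∀ i, k i ≤ K) → N.Width W →
    N.sweep.1.length ≤ w ∧ N.sweep.2.length ≤ t.leaves.length * (K + W * W) ∧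
    ∀ ρ ∈ N.sweep.2, ρ.comb.length ≤ W

/-- COR: correctness of the algorithm. -/
def CorStmt : Prop :=
  ∀ {F : Type} [Field F] [DecidableEq F] {n : ℕ} {k : Fin n → ℕ} (c : ℕ) (N : Fin c → Term F k),
    (∀ j, (N j).1.Full) →
    ((∀ s : PA k, s.Total → ∑ j, (N j).2.val s 0 = 0) ↔ ∀ z ∈ scalars c N, z = 0)

/-- LEN: number of scalars and widths in the recursion. -/
def LenStmt : Prop :=
  ∀ {F : Type} [Field F] [DecidableEq F] {n : ℕ} {k : Fin n → ℕ} (K W : ℕ), (∀ i, k i ≤ K) →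
    ∀ (c : ℕ) (N : Fin c → Term F k), (∀ j, (N j).1.Full) → (∀ j, (N j).2.Width W) →
    (scalars c N).length ≤ (2 * n * (K + 1)) ^ c * (W + 1) ^ (2 ^ (c + 1) - 2) ∧
    WidthAll ((W + 1) ^ 2 ^ c) c N

/-- TRA: from polynomials to tensors of integers. -/
def TraStmt : Prop :=
  ∀ {σ : Type} {n c : ℕ} (L : Fin n → Layer σ ℤ), (∀ i, (L i).Valid) →
    (∀ i j, i ≠ j → Disjoint (L i).vars (L j).vars) →
    ∀ N : Fin c → Term ℤ (fun i => (L i).K), (∀ j, (N j).1.Full) →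
    (∑ j, poly L (N j).2 0 = 0 ↔ ∀ s : PA (fun i => (L i).K), s.Total →
      ∑ j, ((N j).2.mulLeaf fun i => (L i).gram).val s 0 = 0)

/-- BIT: size of the integers. -/
def BitStmt : Prop :=
  ∀ {n : ℕ} {k : Fin n → ℕ} (K W b g : ℕ) (G : (i : Fin n) → Fin (k i) → Fin (k i) → ℤ),
    (∀ i, k i ≤ K) → (∀ i u u', |G i u u'| ≤ 2 ^ g) →
    ∀ {t : Tree n} {w : ℕ} (N : Net ℤ k t w), N.Width W → N.Bits b → ∀ (s : PA k) (c : Fin w),
      |(N.mulLeaf G).val s c| ≤ 2 ^ (N.count * (g + b + K + 2 * W))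

/-- CNT: number of nodes. -/
def CntStmt : Prop :=
  ∀ {n : ℕ} {k : Fin n → ℕ} {t : Tree n} {w : ℕ} (N : Net ℤ k t w), t.Full → N.count < 2 * n

/-- MOD: reduction modulo `p`. -/
def ModStmt : Prop :=
  ∀ {n : ℕ} {k : Fin n → ℕ} (p : ℕ) {t : Tree n} {w : ℕ} (N : Net ℤ k t w) (s : PA k) (c : Fin w),
    (N.map (Int.castRingHom (ZMod p))).val s c = ((N.val s c : ℤ) : ZMod p)

/-- PRM: a nonzero integer of `B` bits is not divisible by all small primes. -/
def PrmStmt : Prop :=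
  ∀ (B : ℕ) (x : ℤ), |x| ≤ 2 ^ B → (∀ p : ℕ, p.Prime → p ≤ 4 * (B + 2) ^ 2 → (p : ℤ) ∣ x) → x = 0

/-- The bound for the primes: `n` blocks, `c` networks, widths `W`, coefficients of `b` bits, layers
with parameters `k, m, d, b`. -/
def primeBound (n c k m d b W : ℕ) : ℕ :=
  4 * (c + 2 * n * (2 * b * (1 + R k m d) + b + k + 2 * W) + 2) ^ 2

/-- Identity test for sums of read-once networks over different trees. -/
def MainStmt : Prop :=
  ∀ {σ : Type} {n c : ℕ} (L : Fin n → Layer σ ℤ), (∀ i, (L i).Valid) →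
    (∀ i j, i ≠ j → Disjoint (L i).vars (L j).vars) →
    ∀ N : Fin c → Term ℤ (fun i => (L i).K), (∀ j, (N j).1.Full) →
    ∀ k m d b W : ℕ, (∀ i, (L i).Small k m d b) → (∀ j, (N j).2.Width W ∧ (N j).2.Bits b) →
      (∑ j, poly L (N j).2 0 = 0 ↔ ∀ p : ℕ, [Fact p.Prime] → p ≤ primeBound n c k m d b W →
        ∀ z ∈ scalars c (fun j => residue L p (N j)), z = 0) ∧
      (∀ p : ℕ, [Fact p.Prime] →
        (scalars c (fun j => residue L p (N j))).length ≤
          (2 * n * (k + 1)) ^ c * (W + 1) ^ (2 ^ (c + 1) - 2) ∧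
        WidthAll ((W + 1) ^ 2 ^ c) c (fun j => residue L p (N j))) ∧
      ∀ i, ∀ u, ∑ j, (L i).red u j ≤ R k m d ∧
        ∀ u' C r r', C ≤ (L i).B → r ≤ (L i).red u → r' ≤ (L i).red u' →
          |(L i).gramB u u' C r r'| ≤ 2 ^ (2 * b * (1 + R k m d))

end Pool.Agent.SN
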