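import Pool.Agent.Helper14_SN.Stmts

set_option autoImplicit false

/-! SWP: relations of a network. -/

namespace Pool.Agent.SN


namespace PA

variable {n : ℕ} {k : Fin n → ℕ}

theorem merge_some {s s' : PA k} {i : Fin n} (h : (s i).isSome) : s.merge s' i = s i := by
  unfold merge
  cases h' : s i with
  | none => rw [h'] at h; simp at h
  | some u => rfl

theorem merge_none {s s' : PA k} {i : Fin n} (h : ¬ (s i).isSome) : s.merge s' i = s' i := by
  unfold merge
  cases h' : s i with
  | none => rfl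
  | some u => rw [h'] at h; simp at h

theorem isSome_merge {s s' : PA k} {i : Fin n} :
    (s.merge s' i).isSome ↔ (s i).isSome ∨ (s' i).isSome := by
  by_cases h : (s i).isSome
  · rw [merge_some h]; simp [h]
  · rw [merge_none h]; simp [h]

theorem merge_assoc (s s' s'' : PA k) : (s.merge s').merge s'' = s.merge (s'.merge s'') := by
  funext i
  by_cases h : (s i).isSome
  · rw [merge_some (isSome_merge.2 (Or.inl h)), merge_some h, merge_some h]
  · rw [merge_none (s' := s'.merge s'') h]
    by_cases h' : (s' i).isSome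
    · rw [merge_some (isSome_merge.2 (Or.inr h')), merge_none h, merge_some h']
    · rw [merge_none (s' := s'') (fun h1 => (isSome_merge.1 h1).elim h h'), merge_none h']

theorem merge_total {s s' : PA k} (h : s'.Total) : (s.merge s').Total :=
  fun i => isSome_merge.2 (Or.inr (h i))

theorem merge_of_total {s s' : PA k} (h : s.Total) : s.merge s' = s := by
  funext i
  exact merge_some (h i)

theorem merge_comm {s s' s'' : PA k} (h : ∀ i, (s i).isSome → ¬ (s' i).isSome) :
    s.merge (s'.merge s'') = s'.merge (s.merge s'') := by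
  funext i
  by_cases h1 : (s i).isSome
  · rw [merge_some h1, merge_none (h i h1), merge_some h1]
  · rw [merge_none h1]
    by_cases h2 : (s' i).isSome
    · rw [merge_some h2, merge_some h2]
    · rw [merge_none h2, merge_none h2, merge_none h1]

theorem isSome_single {i : Fin n} {u : Fin (k i)} {j : Fin n} :
    (single i u j).isSome ↔ j = i := by
  unfold single
  split_ifs with h
  · simp [h]
  · simp [h]

theorem single_self {i : Fin n} {u : Fin (k i)} : single i u i = some u := by
  unfold single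
  rw [dif_pos rfl]

theorem single_merge {s : PA k} (i : Fin n) (u : Fin (k i)) (h : s i = some u) :
    (single i u).merge s = s := by
  funext j
  by_cases h1 : j = i
  · subst h1
    rw [merge_some (isSome_single.2 rfl), single_self, h]
  · rw [merge_none (fun h2 => h1 (isSome_single.1 h2))]

end PA

namespace Net

variable {F : Type} {n : ℕ} {k : Fin n → ℕ}

theorem val_congr [Semiring F] : ∀ {t : Tree n} {w : ℕ} (N : Net F k t w) (s s' : PA k),
    (∀ i ∈ t.leaves, s i = s' i) → N.val s = N.val s'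
  | .leaf i, _, leaf B, s, s', h => by
    have := h i (by simp [Tree.leaves])
    funext c
    simp only [val]
    rw [this]
  | .node l r, _, node M N N', s, s', h => by
    have h1 := val_congr N s s' (fun i hi => h i (by simp [Tree.leaves, hi]))
    have h2 := val_congr N' s s' (fun i hi => h i (by simp [Tree.leaves, hi]))
    funext c
    simp only [val]
    rw [h1, h2]

end Net

/-- The domains of all assignments in a relation coincide and are contained in a set. -/
def Dom {F : Type} {n : ℕ} {k : Fin n → ℕ} (D : Fin n → Prop) (ρ : Rel F k) : Prop :=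
  (∀ i, (ρ.at_ i).isSome → D i) ∧ ∀ p ∈ ρ.comb, ∀ i, (p.2 i).isSome ↔ (ρ.at_ i).isSome

/-- What is proved by induction over the network. -/
def SwpInd {F : Type} [Field F] [DecidableEq F] {n : ℕ} {k : Fin n → ℕ} {t : Tree n} {w : ℕ}
    (N : Net F k t w) : Prop :=
  (∀ s ∈ N.sweep.1, ∀ i, (s i).isSome ↔ i ∈ t.leaves) ∧
  (∀ ρ ∈ N.sweep.2, Dom (fun i => i ∈ t.leaves) ρ ∧ ∀ c, Holds (fun s => N.val s c) ρ) ∧
  ∀ φ : PA k → F, (∀ ρ ∈ N.sweep.2, Holds φ ρ) →
    (∀ s ∈ N.sweep.1, ∀ s' : PA k, s'.Total → φ (s.merge s') = 0) →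
    ∀ s : PA k, s.Total → φ s = 0

section

variable {F : Type} [Field F] [DecidableEq F] {n : ℕ} {k : Fin n → ℕ}

open Net

/-- A relation among vectors of values at assignments with full domain holds. -/
theorem holds_of_eq {t : Tree n} {w : ℕ} (N : Net F k t w) (ρ : Rel F k)
    (h1 : ∀ i ∈ t.leaves, (ρ.at_ i).isSome) (h2 : ∀ p ∈ ρ.comb, ∀ i ∈ t.leaves, (p.2 i).isSome)
    (c : Fin w) (h : N.val ρ.at_ c = (ρ.comb.map fun p => p.1 * N.val p.2 c).sum) :
    Holds (fun s => N.val s c) ρ := by
  intro s _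
  have e1 : N.val (ρ.at_.merge s) = N.val ρ.at_ :=
    N.val_congr _ _ (fun i hi => PA.merge_some (h1 i hi))
  have e2 : ∀ p ∈ ρ.comb, p.1 * N.val (p.2.merge s) c = p.1 * N.val p.2 c := by
    intro p hp
    rw [N.val_congr (p.2.merge s) p.2 (fun i hi => PA.merge_some (h2 p hp i hi))]
  simp only
  rw [e1, h]
  congr 1
  exact (List.map_congr_left e2).symm

theorem select_holds (hsel : SelStmt) {t : Tree n} {w : ℕ} (N : Net F k t w) (c : List (PA k))
    (hc : ∀ s ∈ c, ∀ i, (s i).isSome ↔ i ∈ t.leaves) :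
    ∀ ρ ∈ (select N.val c).2, Dom (fun i => i ∈ t.leaves) ρ ∧ ∀ x, Holds (fun s => N.val s x) ρ := by
  intro ρ hρ
  obtain ⟨_, _, h3, _, h5⟩ := hsel N.val c
  obtain ⟨h6, _, h7, h8⟩ := h5 ρ hρ
  have h9 := hc _ h6
  have h10 : ∀ p ∈ ρ.comb, ∀ i, (p.2 i).isSome ↔ i ∈ t.leaves := fun p hp =>
    hc _ (h3 _ (h7 p hp))
  refine ⟨⟨fun i hi => (h9 i).1 hi, fun p hp i => (h10 p hp i).trans (h9 i).symm⟩, fun x => ?_⟩
  exact holds_of_eq N ρ (fun i hi => (h9 i).2 hi) (fun p hp i hi => (h10 p hp i).2 hi) x (h8 x)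

/-- If a function satisfies the relations of a selection and vanishes at the selected assignments
it vanishes at all candidates. -/
theorem select_zero (hsel : SelStmt) {w : ℕ} (f : PA k → Fin w → F) (c : List (PA k))
    (φ : PA k → F) (hφ : ∀ ρ ∈ (select f c).2, Holds φ ρ)
    (h0 : ∀ s ∈ (select f c).1, ∀ s' : PA k, s'.Total → φ (s.merge s') = 0) :
    ∀ s ∈ c, ∀ s' : PA k, s'.Total → φ (s.merge s') = 0 := by
  intro s hs s' hs'
  obtain ⟨_, _, _, h4, h5⟩ := hsel f c
  rcases h4 s hs with h | ⟨ρ, hρ, h⟩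
  · exact h0 s h s' hs'
  · have h6 := hφ ρ hρ s' hs'
    rw [h] at h6
    rw [h6]
    apply List.sum_eq_zero
    intro x hx
    obtain ⟨p, hp, rfl⟩ := List.mem_map.1 hx
    rw [h0 p.2 ((h5 ρ hρ).2.2.1 p hp) s' hs', mul_zero]

theorem sum_comb_left {a b : ℕ} (M : Fin a → Fin b → F) (Y : Fin b → F) (X : PA k → Fin a → F)
    (l : List (F × PA k)) :
    (l.map fun p => p.1 * ∑ x, ∑ y, M x y * X p.2 x * Y y).sum
      = ∑ x, ∑ y, M x y * (l.map fun p => p.1 * X p.2 x).sum * Y y := by
  induction l with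
  | nil => simp
  | cons p l ih =>
    simp only [List.map_cons, List.sum_cons]
    rw [ih, Finset.mul_sum, ← Finset.sum_add_distrib]
    apply Finset.sum_congr rfl
    intro x _
    rw [Finset.mul_sum, ← Finset.sum_add_distrib]
    apply Finset.sum_congr rfl
    intro y _
    ring

theorem sum_comb_right {a b : ℕ} (M : Fin a → Fin b → F) (Y : Fin a → F) (X : PA k → Fin b → F)
    (l : List (F × PA k)) :
    (l.map fun p => p.1 * ∑ x, ∑ y, M x y * Y x * X p.2 y).sum
      = ∑ x, ∑ y, M x y * Y x * (l.map fun p => p.1 * X p.2 y).sum := by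
  induction l with
  | nil => simp
  | cons p l ih =>
    simp only [List.map_cons, List.sum_cons]
    rw [ih, Finset.mul_sum, ← Finset.sum_add_distrib]
    apply Finset.sum_congr rfl
    intro x _
    rw [Finset.mul_sum, ← Finset.sum_add_distrib]
    apply Finset.sum_congr rfl
    intro y _
    ring

/-- Values do not see assignments outside the tree. -/
theorem val_merge_outside {t : Tree n} {w : ℕ} (N : Net F k t w) (s s' : PA k)
    (h : ∀ i ∈ t.leaves, ¬ (s i).isSome) : N.val (s.merge s') = N.val s' :=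
  N.val_congr _ _ (fun i hi => PA.merge_none (h i hi))

theorem holds_left {l r : Tree n} {a b w : ℕ} (M : Fin w → Fin a → Fin b → F) (N : Net F k l a)
    (N' : Net F k r b) (hd : ∀ i ∈ l.leaves, i ∉ r.leaves) (ρ : Rel F k)
    (h1 : Dom (fun i => i ∈ l.leaves) ρ) (h2 : ∀ c, Holds (fun s => N.val s c) ρ) (c : Fin w) :
    Holds (fun s => (node M N N').val s c) ρ := by
  intro s hs
  have e1 : N'.val (ρ.at_.merge s) = N'.val s :=
    val_merge_outside N' _ _ (fun i hi h => hd i (h1.1 i h) hi)
  have e2 : ∀ p ∈ ρ.comb, N'.val (p.2.merge s) = N'.val s := fun p hp =>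
    val_merge_outside N' _ _ (fun i hi h => hd i (h1.1 i ((h1.2 p hp i).1 h)) hi)
  have e3 : ∀ p ∈ ρ.comb, p.1 * (node M N N').val (p.2.merge s) c
      = p.1 * ∑ x, ∑ y, M c x y * N.val (p.2.merge s) x * N'.val s y := by
    intro p hp
    simp only [val]
    rw [e2 p hp]
  simp only
  rw [List.map_congr_left e3, sum_comb_left (M c) (N'.val s) (fun q => N.val (q.merge s))]
  simp only [val]
  rw [e1]
  apply Finset.sum_congr rfl
  intro x _
  apply Finset.sum_congr rfl
  intro y _
  have := h2 x s hs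
  simp only at this
  rw [this]

theorem holds_right {l r : Tree n} {a b w : ℕ} (M : Fin w → Fin a → Fin b → F) (N : Net F k l a)
    (N' : Net F k r b) (hd : ∀ i ∈ l.leaves, i ∉ r.leaves) (ρ : Rel F k)
    (h1 : Dom (fun i => i ∈ r.leaves) ρ) (h2 : ∀ c, Holds (fun s => N'.val s c) ρ) (c : Fin w) :
    Holds (fun s => (node M N N').val s c) ρ := by
  intro s hs
  have e1 : N.val (ρ.at_.merge s) = N.val s :=
    val_merge_outside N _ _ (fun i hi h => hd i hi (h1.1 i h))
  have e2 : ∀ p ∈ ρ.comb, N.val (p.2.merge s) = N.val s := fun p hp =>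
    val_merge_outside N _ _ (fun i hi h => hd i hi (h1.1 i ((h1.2 p hp i).1 h)))
  have e3 : ∀ p ∈ ρ.comb, p.1 * (node M N N').val (p.2.merge s) c
      = p.1 * ∑ x, ∑ y, M c x y * N.val s x * N'.val (p.2.merge s) y := by
    intro p hp
    simp only [val]
    rw [e2 p hp]
  simp only
  rw [List.map_congr_left e3, sum_comb_right (M c) (N.val s) (fun q => N'.val (q.merge s))]
  simp only [val]
  rw [e1]
  apply Finset.sum_congr rfl
  intro x _
  apply Finset.sum_congr rfl
  intro y _
  have := h2 y s hs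
  simp only at this
  rw [this]

theorem swpInd (hsel : SelStmt) : ∀ {t : Tree n} {w : ℕ} (N : Net F k t w), t.leaves.Nodup →
    SwpInd N
  | .leaf i, _, leaf B, _ => by
    set c : List (PA k) := (List.finRange (k i)).map (PA.single i) with hc
    have hc1 : ∀ s ∈ c, ∀ j, (s j).isSome ↔ j ∈ (Tree.leaf i).leaves := by
      intro s hs j
      obtain ⟨u, _, rfl⟩ := List.mem_map.1 hs
      rw [PA.isSome_single]
      simp [Tree.leaves]
    refine ⟨?_, ?_, ?_⟩
    · intro s hs
      exact hc1 s ((hsel (leaf (k := k) (i := i) B).val c).2.2.1 s hs)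
    · exact select_holds hsel (leaf (k := k) (i := i) B) c hc1
    · intro φ hφ h0 s hs
      have h1 := select_zero hsel (leaf (k := k) (i := i) B).val c φ hφ h0
      obtain ⟨u, hu⟩ := Option.isSome_iff_exists.1 (hs i)
      have h2 := h1 (PA.single i u) (List.mem_map.2 ⟨u, List.mem_finRange u, rfl⟩) s hs
      rwa [PA.single_merge i u hu] at h2
  | .node l r, _, node M N N', hnd => by
    have hnd1 : l.leaves.Nodup ∧ r.leaves.Nodup ∧ List.Disjoint l.leaves r.leaves := by
      have := List.nodup_append'.1 hnd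
      exact this
    have hd : ∀ i ∈ l.leaves, i ∉ r.leaves := fun i hi hi' => hnd1.2.2 hi hi'
    obtain ⟨a1, a2, a3⟩ := swpInd hsel N hnd1.1
    obtain ⟨b1, b2, b3⟩ := swpInd hsel N' hnd1.2.1
    set c : List (PA k) := N.sweep.1.flatMap fun s => N'.sweep.1.map fun s' => s.merge s' with hc
    have hc0 : ∀ s ∈ N.sweep.1, ∀ s' ∈ N'.sweep.1, s.merge s' ∈ c := by
      intro s hs s' hs'
      exact List.mem_flatMap.2 ⟨s, hs, List.mem_map.2 ⟨s', hs', rfl⟩⟩
    have hc1 : ∀ s ∈ c, ∀ j, (s j).isSome ↔ j ∈ (Tree.node l r).leaves := by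
      intro s hs j
      obtain ⟨s1, hs1, hs2⟩ := List.mem_flatMap.1 hs
      obtain ⟨s2, hs3, rfl⟩ := List.mem_map.1 hs2
      rw [PA.isSome_merge, a1 s1 hs1 j, b1 s2 hs3 j]
      simp [Tree.leaves]
    have hs1 : (node M N N').sweep.1 = (select (node M N N').val c).1 := rfl
    have hs2 : (node M N N').sweep.2
        = N.sweep.2 ++ N'.sweep.2 ++ (select (node M N N').val c).2 := rfl
    refine ⟨?_, ?_, ?_⟩
    · intro s hs
      rw [hs1] at hs
      exact hc1 s ((hsel (node M N N').val c).2.2.1 s hs)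
    · intro ρ hρ
      rw [hs2, List.mem_append, List.mem_append] at hρ
      rcases hρ with (h | h) | h
      · obtain ⟨h1, h2⟩ := a2 ρ h
        refine ⟨⟨fun i hi => ?_, h1.2⟩, holds_left M N N' hd ρ h1 h2⟩
        have := h1.1 i hi
        simp [Tree.leaves, this]
      · obtain ⟨h1, h2⟩ := b2 ρ h
        refine ⟨⟨fun i hi => ?_, h1.2⟩, holds_right M N N' hd ρ h1 h2⟩
        have := h1.1 i hi
        simp [Tree.leaves, this]
      · exact select_holds hsel (node M N N') c hc1 ρ h
    · intro φ hφ h0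
      rw [hs2] at hφ
      rw [hs1] at h0
      have h1 := select_zero hsel (node M N N').val c φ
        (fun ρ hρ => hφ ρ (List.mem_append_right _ hρ)) h0
      apply a3 φ (fun ρ hρ => hφ ρ (List.mem_append_left _ (List.mem_append_left _ hρ)))
      intro s hs s' hs'
      apply b3 (fun x => φ (s.merge x)) _ _ s' hs'
      · intro ρ hρ x hx
        have h2 := hφ ρ (List.mem_append_left _ (List.mem_append_right _ hρ)) (s.merge x)
          (PA.merge_total hx)
        have h3 : ∀ i, (s i).isSome → ¬ (ρ.at_ i).isSome := fun i hi hi' =>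
          hd i ((a1 s hs i).1 hi) ((b2 ρ hρ).1.1 i hi')
        have e1 : s.merge (ρ.at_.merge x) = ρ.at_.merge (s.merge x) := PA.merge_comm h3
        have e2 : ∀ p ∈ ρ.comb, p.1 * φ (s.merge (p.2.merge x)) = p.1 * φ (p.2.merge (s.merge x)) := by
          intro p hp
          rw [PA.merge_comm (fun i hi hi' => h3 i hi (((b2 ρ hρ).1.2 p hp i).1 hi'))]
        simp only
        rw [e1, h2, List.map_congr_left e2]
      · intro s'' hs'' x hx
        rw [← PA.merge_assoc]
        exact h1 _ (hc0 s hs s'' hs'') x hx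

end

theorem swp (hsel : SelStmt) : SwpStmt := by
  intro F _ _ n k t w N hN
  obtain ⟨h1, h2, h3⟩ := swpInd hsel N hN
  exact ⟨h1, fun ρ hρ => (h2 ρ hρ).2, h3⟩

end Pool.Agent.SN
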